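import Pool.Agent.Helper30.BG.Goals

/-!
# Project BG (MP_66e6f4_an), packet A: `Y → 0` in cones around the `x₀` axis
-/

open InnerProductSpace Metric Set Filter Topology MeasureTheory
open scoped ContDiff Laplacian
open Pool.Agent.Helper30.BG

namespace Pool.Agent.Helper67.BG

theorem abs_coord_le (y : E3) : |y 0| ≤ ‖y‖ := by
  have h := PiLp.norm_apply_le y 0
  rwa [Real.norm_eq_abs] at h

theorem coord_le (y : E3) : y 0 ≤ ‖y‖ := (le_abs_self _).trans (abs_coord_le y)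

/-- `S = 1 - e^(-l Y)` is a supersolution. -/
theorem superS {Y g : E3 → ℝ} {l : ℝ} (hcd : ContDiff ℝ 2 Y) (hl : 0 < l) (x : E3)
    (heq : Δ Y x + 2 * g x * pd 0 Y x = g x * ∑ i, pd i Y x ^ 2) (hg : g x ≤ l) :
    Δ (fun y => 1 - Real.exp (-l * Y y)) x +
      2 * g x * pd 0 (fun y => 1 - Real.exp (-l * Y y)) x ≤ 0 := by
  have hd1 : ∀ t : ℝ, HasDerivAt (fun t : ℝ => 1 - Real.exp (-l * t)) (l * Real.exp (-l * t)) t := by
    intro t
    have h1 : HasDerivAt (fun t : ℝ => -l * t) (-l) t := by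
      simpa using (hasDerivAt_id t).const_mul (-l)
    refine (h1.exp.const_sub 1).congr_deriv ?_
    ring
  have hd2 : ∀ t : ℝ, HasDerivAt (fun t : ℝ => l * Real.exp (-l * t))
      (-(l ^ 2) * Real.exp (-l * t)) t := by
    intro t
    have h1 : HasDerivAt (fun t : ℝ => -l * t) (-l) t := by
      simpa using (hasDerivAt_id t).const_mul (-l)
    refine (h1.exp.const_mul l).congr_deriv ?_
    ring
  have hc : ContDiff ℝ 2 (fun t : ℝ => 1 - Real.exp (-l * t)) := by fun_prop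
  have h := (HD2.mk' (x := x) hcd.contDiffAt).comp (φ := fun t : ℝ => 1 - Real.exp (-l * t))
    (φ' := fun t : ℝ => l * Real.exp (-l * t)) hc.contDiffAt
    (Eventually.of_forall hd1) (hd2 (Y x))
  rw [h.lap, h.pd]
  simp only [Pi.smul_apply, smul_eq_mul]
  have h2 : -(l ^ 2) * Real.exp (-l * Y x) * ∑ i, pd i Y x ^ 2 +
      l * Real.exp (-l * Y x) * Δ Y x + 2 * g x * (l * Real.exp (-l * Y x) * pd 0 Y x) =
      -(l * Real.exp (-l * Y x) * (l - g x) * ∑ i, pd i Y x ^ 2) := by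
    linear_combination (l * Real.exp (-l * Y x)) * heq
  rw [h2, neg_nonpos]
  have h3 : 0 ≤ ∑ i, pd i Y x ^ 2 := Finset.sum_nonneg fun i _ => sq_nonneg _
  have h4 : 0 ≤ l - g x := by linarith
  positivity

theorem a (hB : S_BAR) (hH : S_HARN) : S_A := by
  intro u Y g a0 a1 α β κp κm M hY η hη ε hε
  obtain ⟨C, hC1, hC⟩ := hH
  have hC0 : 0 < C := by linarith
  have hα := hY.α_pos
  have hM : 0 ≤ M := (hY.g0 0).trans (hY.gM 0)
  -- reduction to `η ≤ 1`
  obtain ⟨η', hη'0, hη'1, hη'⟩ : ∃ η' : ℝ, 0 < η' ∧ η' ≤ 1 ∧ η' ≤ η :=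
    ⟨min η 1, lt_min hη one_pos, min_le_right _ _, min_le_left _ _⟩
  set l : ℝ := M + 1 with hl
  have hl0 : 0 < l := by rw [hl]; linarith
  set S : E3 → ℝ := fun y => 1 - Real.exp (-l * Y y) with hS
  have hScd : ContDiff ℝ 2 S := by
    have h1 := hY.cd
    rw [hS]
    fun_prop
  have hS0 : ∀ y, 0 ≤ S y := by
    intro y
    have h1 : Real.exp (-l * Y y) ≤ 1 := by
      rw [Real.exp_le_one_iff]
      have := mul_nonneg hl0.le (hY.nn y)
      linarith
    simp only [hS]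
    linarith
  have hSle : ∀ y, S y ≤ l * Y y := by
    intro y
    have h1 := Real.add_one_le_exp (-l * Y y)
    simp only [hS]
    linarith
  have hSsup : ∀ y, Δ S y + 2 * g y * pd 0 S y ≤ 0 := fun y =>
    superS hY.cd hl0 y (hY.eq y) (by have := hY.gM y; rw [hl]; linarith)
  set κ : ℝ := 1 - Real.exp (-l * (ε / C)) with hκ
  have hκ0 : 0 < κ := by
    have h1 : Real.exp (-l * (ε / C)) < 1 := by
      rw [Real.exp_lt_one_iff]
      have : 0 < l * (ε / C) := by positivity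
      linarith
    rw [hκ]
    linarith
  obtain ⟨p, hp⟩ := hY.inf (κ * η' / 32 / l) (by positivity)
  have hSp : S p < κ * η' / 32 := by
    refine (hSle p).trans_lt ?_
    rw [lt_div_iff₀ hl0] at hp
    linarith
  obtain ⟨R, hR⟩ := hY.subp (α * η' / 20) (by positivity)
  refine ⟨max (max (2 * R / η') (4 * a1 / (α * η'))) (2 * ‖p‖ + 1), fun x hx hxr => ?_⟩
  by_contra hcon
  push Not at hcon
  have hr1 : 2 * R / η' ≤ ‖x‖ := (le_max_left _ _).trans ((le_max_left _ _).trans hxr)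
  have hr2 : 4 * a1 / (α * η') ≤ ‖x‖ := (le_max_right _ _).trans ((le_max_left _ _).trans hxr)
  have hr3 : 2 * ‖p‖ + 1 ≤ ‖x‖ := (le_max_right _ _).trans hxr
  have hpn := norm_nonneg p
  set ρ : ℝ := ‖x‖ with hρ
  have hρ0 : 0 < ρ := by linarith
  have hx' : η' * ρ ≤ x 0 := le_trans (by gcongr) hx
  rw [div_le_iff₀ hη'0] at hr1
  rw [div_le_iff₀ (by positivity)] at hr2
  -- the region where `u ≥ a1`
  have hbig : ∀ y : E3, η' * ρ / 2 ≤ y 0 → ‖y‖ ≤ 5 * ρ → a1 ≤ u y := by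
    intro y hy1 hy2
    have h0 : 0 ≤ y 0 := le_trans (by positivity) hy1
    have h1 : R ≤ ‖y‖ := by
      have := coord_le y
      linarith
    have h2 := hR y h0 h1
    have h3 : α * (η' * ρ / 2) ≤ α * y 0 := by gcongr
    have h4 : α * η' / 20 * ‖y‖ ≤ α * η' / 20 * (5 * ρ) := by gcongr
    nlinarith
  have hg0 : ∀ y : E3, η' * ρ / 2 ≤ y 0 → ‖y‖ ≤ 5 * ρ → g y = 0 := fun y h1 h2 =>
    hY.gup y (hbig y h1 h2)
  have hdist : ∀ y : E3, ∀ r : ℝ, ‖y - x‖ < r → ‖y‖ ≤ ρ + r := by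
    intro y r h
    have h1 := norm_add_le (y - x) x
    rw [sub_add_cancel] at h1
    linarith
  -- Harnack
  have hharm : ∀ y ∈ ball x (η' * ρ / 2), Δ Y y = 0 := by
    intro y hy
    rw [mem_ball_iff_norm] at hy
    have h1 : η' * ρ / 2 ≤ y 0 := by
      have h2 := abs_coord_le (y - x)
      rw [PiLp.sub_apply] at h2
      have h3 := (abs_le.1 h2).1
      linarith
    have h2 : ‖y‖ ≤ 5 * ρ := by
      have := hdist y _ hy
      nlinarith
    have h3 := hY.eq y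
    rw [hg0 y h1 h2] at h3
    simpa using h3
  have hHar := (hC Y x (η' * ρ / 2) (by positivity) hY.cd hharm (fun y _ => hY.nn y)).1
  have hSk : ∀ y ∈ sphere x (η' * ρ / 8), κ ≤ S y := by
    intro y hy
    have h1 : y ∈ closedBall x (η' * ρ / 2 / 4) := by
      rw [mem_closedBall, mem_sphere.1 hy]
      apply le_of_eq
      ring
    have h2 := hHar y h1
    have h3 : ε / C ≤ Y y := by
      rw [div_le_iff₀ hC0]
      linarith
    simp only [hS, hκ]
    have h4 : Real.exp (-l * Y y) ≤ Real.exp (-l * (ε / C)) := by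
      rw [Real.exp_le_exp]
      have : l * (ε / C) ≤ l * Y y := by gcongr
      linarith
    linarith
  have hmain := hB S g M κ (η' * ρ / 8) (4 * ρ) x (by positivity) (by nlinarith) hκ0.le hScd
    hY.g0 hY.gM (fun y hy hxy => by
      rw [mem_ball_iff_norm] at hy
      apply hg0 y
      · have : 0 < η' * ρ := by positivity
        linarith
      · have := hdist y _ hy
        linarith) (fun y _ => hSsup y) (fun y _ => hS0 y) hSk p (by
        rw [mem_closedBall, dist_eq_norm]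
        have := norm_sub_le p x
        linarith) (by
        have h1 := norm_sub_norm_le x p
        rw [norm_sub_rev] at h1
        nlinarith)
  -- numbers
  have hd1 : ‖p - x‖ ≤ 3 / 2 * ρ := by
    have := norm_sub_le p x
    linarith
  have hd0 : 0 < ‖p - x‖ := by
    have h1 := norm_sub_norm_le x p
    rw [norm_sub_rev] at h1
    linarith
  have hn1 : 2 / 3 * ρ⁻¹ ≤ ‖p - x‖⁻¹ := by
    have h1 : (3 / 2 * ρ)⁻¹ ≤ ‖p - x‖⁻¹ := by gcongr
    refine le_trans (le_of_eq ?_) h1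
    rw [mul_inv]
    norm_num
  have hn2 : κ * (5 / 12 * ρ⁻¹) ≤ κ * (‖p - x‖⁻¹ - (4 * ρ)⁻¹) := by
    have h1 : (4 * ρ)⁻¹ = 1 / 4 * ρ⁻¹ := by rw [mul_inv]; norm_num
    rw [h1]
    gcongr
    linarith
  have hτ : (η' * ρ / 8)⁻¹ = 8 / η' * ρ⁻¹ := by field_simp
  have hden0 : 0 < (η' * ρ / 8)⁻¹ - (4 * ρ)⁻¹ := by
    rw [sub_pos]
    have : η' * ρ / 8 < 4 * ρ := by nlinarith
    gcongr
  have hden : (η' * ρ / 8)⁻¹ - (4 * ρ)⁻¹ ≤ 8 / η' * ρ⁻¹ := by
    rw [hτ]
    have : 0 < (4 * ρ)⁻¹ := by positivity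
    linarith
  have hfin : κ * (5 / 12 * ρ⁻¹) / (8 / η' * ρ⁻¹) ≤ S p := by
    refine le_trans ?_ hmain
    calc κ * (5 / 12 * ρ⁻¹) / (8 / η' * ρ⁻¹) ≤
        κ * (5 / 12 * ρ⁻¹) / ((η' * ρ / 8)⁻¹ - (4 * ρ)⁻¹) := by gcongr
      _ ≤ _ := by gcongr
  have hval : κ * (5 / 12 * ρ⁻¹) / (8 / η' * ρ⁻¹) = 5 * (κ * η') / 96 := by
    field_simp
    ring
  rw [hval] at hfin
  have : 0 < κ * η' := by positivity
  linarith

end Pool.Agent.Helper67.BG
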